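import Pool.Agent.Helper2.KW.T2
import Pool.Agent.Helper47.NI.Main

/-!
# Parallel points of good Wehler surfaces over a field
-/

namespace Pool.Agent.Helper96.KW

open Pool.Agent.Helper2.KW

section vec

variable {k : Type} [Field k]

/-- The multiple of a vector. -/
def sm (c : k) (a : V3 k) : V3 k := fun i => c * a i

theorem crs_pair {a b : V3 k} (h : crs a b = 0) (i j : Fin 3) : a i * b j = a j * b i := by
  have h0 : a 1 * b 2 - a 2 * b 1 = 0 := congrFun h 0
  have h1 : a 2 * b 0 - a 0 * b 2 = 0 := congrFun h 1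
  have h2 : a 0 * b 1 - a 1 * b 0 = 0 := congrFun h 2
  fin_cases i <;> fin_cases j
  · rfl
  · show a 0 * b 1 = a 1 * b 0
    linear_combination h2
  · show a 0 * b 2 = a 2 * b 0
    linear_combination -h1
  · show a 1 * b 0 = a 0 * b 1
    linear_combination -h2
  · rfl
  · show a 1 * b 2 = a 2 * b 1
    linear_combination h0
  · show a 2 * b 0 = a 0 * b 2
    linear_combination h1
  · show a 2 * b 1 = a 1 * b 2
    linear_combination -h0
  · rfl

theorem crs_sm (c : k) (a : V3 k) : crs a (sm c a) = 0 := by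
  funext i
  fin_cases i <;> simp [crs, sm] <;> ring

theorem crs_comm_zero {a b : V3 k} (h : crs a b = 0) : crs b a = 0 := by
  have h1 := crs_pair h
  funext i
  fin_cases i <;> simp [crs]
  · linear_combination h1 2 1
  · linear_combination h1 0 2
  · linear_combination h1 1 0

theorem Uni.ne {a : V3 k} (ha : Uni a) : a ≠ 0 := by
  rintro rfl
  obtain ⟨w, hw⟩ := ha
  simp [dot] at hw

theorem exists_sm {a b : V3 k} (ha : a ≠ 0) (h : crs a b = 0) : ∃ c : k, b = sm c a := by
  obtain ⟨i, hi⟩ := Function.ne_iff.mp ha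
  have hi' : a i ≠ 0 := hi
  refine ⟨b i / a i, funext fun j => ?_⟩
  have h1 := crs_pair h i j
  show b j = b i / a i * a j
  field_simp
  linear_combination h1

theorem sm_ne {c : k} {a : V3 k} (h : sm c a ≠ 0) : c ≠ 0 := by
  rintro rfl
  apply h
  funext i
  simp [sm]

theorem sm_sm (c c' : k) (a : V3 k) : sm c (sm c' a) = sm (c * c') a := by
  funext i
  simp [sm, mul_assoc]

theorem sm_one (a : V3 k) : sm 1 a = a := by
  funext i
  simp [sm]

theorem crs_trans {a b c : V3 k} (hb : b ≠ 0) (h1 : crs a b = 0) (h2 : crs b c = 0) : crs a c = 0 := by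
  obtain ⟨x, rfl⟩ := exists_sm hb (crs_comm_zero h1)
  obtain ⟨y, rfl⟩ := exists_sm hb h2
  funext i
  fin_cases i <;> simp [crs, sm] <;> ring

/-- Two decompositions of a quadratic form into linear factors. -/
theorem pair_unique [CharZero k] {g : Fin 3 → Fin 3 → k} {a b c d : V3 k} (h1 : IsConj g a b)
    (h2 : IsConj g c d) : crs c a = 0 ∨ crs d a = 0 := by
  by_contra hcon
  push Not at hcon
  obtain ⟨hc, hd⟩ := hcon
  obtain ⟨η, hη⟩ := Pool.Agent.Helper47.NI.exists_eta (k := k) (n := 3) (ι := Bool)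
    (fun b => if b then crs c a else crs d a) (by
      intro b
      cases b
      · exact hd
      · exact hc)
  have hη1 : ∑ i, η i * crs c a i ≠ 0 := by
    have := hη true
    rwa [Pool.Agent.Helper47.NI.eval_lin] at this
  have hη2 : ∑ i, η i * crs d a i ≠ 0 := by
    have := hη false
    rwa [Pool.Agent.Helper47.NI.eval_lin] at this
  -- the values at `ξ = a × η`
  set ξ : V3 k := crs a η with hξ
  have e1 : (∑ i, ξ i * a i) = 0 := by
    simp only [hξ, crs, Fin.sum_univ_three, Matrix.cons_val]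
    ring
  have e2 : (∑ i, ξ i * c i) = ∑ i, η i * crs c a i := by
    simp only [hξ, crs, Fin.sum_univ_three, Matrix.cons_val]
    ring
  have e3 : (∑ i, ξ i * d i) = ∑ i, η i * crs d a i := by
    simp only [hξ, crs, Fin.sum_univ_three, Matrix.cons_val]
    ring
  have e4 : ∀ x y : V3 k, IsConj g x y →
      ∑ i, ∑ j, g i j * (ξ i * ξ j) = 2 * ((∑ i, ξ i * x i) * ∑ i, ξ i * y i) := by
    intro x y hxy
    have h5 : ∀ i j, g i j = x i * y j + x j * y i := fun i j => (hxy i j).symm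
    simp only [h5, Fin.sum_univ_three]
    ring
  have e5 := (e4 a b h1).symm.trans (e4 c d h2)
  rw [e1, e2, e3, zero_mul, mul_zero] at e5
  have e6 : (∑ i, η i * crs c a i) * ∑ i, η i * crs d a i = 0 := by
    have : (2 : k) ≠ 0 := two_ne_zero
    exact (mul_eq_zero.mp e5.symm).resolve_left this
  rcases mul_eq_zero.mp e6 with h | h
  · exact hη1 h
  · exact hη2 h

theorem line_sm (W : WD k) (c : k) (v : V3 k) : W.line (sm c v) = sm c (W.line v) := by
  funext i
  simp only [WD.line, sm, Finset.mul_sum]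
  exact Finset.sum_congr rfl fun j _ => by ring

theorem con_sm (W : WD k) (c : k) (v : V3 k) : W.con (sm c v) = fun i j => c ^ 2 * W.con v i j := by
  funext i j
  simp only [WD.con, sm, Finset.mul_sum]
  exact Finset.sum_congr rfl fun _ _ => Finset.sum_congr rfl fun _ _ => by ring

theorem crs_sm_left (c : k) (a b : V3 k) : crs (sm c a) b = sm c (crs a b) := by
  funext i
  fin_cases i <;> simp [crs, sm] <;> ring

theorem G_sm (W : WD k) (c : k) (v : V3 k) (i j : Fin 3) : W.G (sm c v) i j = c ^ 4 * W.G v i j := by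
  unfold WD.G gm
  rw [line_sm, con_sm, crs_sm_left, crs_sm_left]
  simp only [bf, sm, Finset.mul_sum]
  exact Finset.sum_congr rfl fun _ _ => Finset.sum_congr rfl fun _ _ => by ring

theorem isPt_sm (W : WD k) (c : k) {u v : V3 k} (h : W.IsPt u v) : W.IsPt (sm c u) v := by
  constructor
  · have : dot (W.line v) (sm c u) = c * dot (W.line v) u := by
      simp only [dot, sm, Finset.mul_sum]
      exact Finset.sum_congr rfl fun _ _ => by ring
    rw [this, h.1, mul_zero]
  · have : qf (W.con v) (sm c u) = c ^ 2 * qf (W.con v) u := by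
      simp only [qf, sm, Finset.mul_sum]
      exact Finset.sum_congr rfl fun _ _ => Finset.sum_congr rfl fun _ _ => by ring
    rw [this, h.2, mul_zero]

/-- The second point, for parallel vectors. -/
theorem conj_sm [Two k] (W : WD k) {c d : k} (hc : c ≠ 0) (hd : d ≠ 0) {u u' v w : V3 k} (hu : Uni u)
    (h1 : IsConj (W.G v) u u') (h2 : IsConj (W.G (sm d v)) (sm c u) w) : w = sm (d ^ 4 / c) u' := by
  have h3 : IsConj (W.G v) u (sm (c / d ^ 4) w) := by
    intro i j
    have h4 := h2 i j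
    rw [G_sm] at h4
    simp only [sm] at h4 ⊢
    field_simp
    linear_combination h4
  have h4 := conj_unique hu h1 h3
  rw [h4, sm_sm]
  have h5 : d ^ 4 / c * (c / d ^ 4) = 1 := by field_simp
  rw [h5, sm_one]

end vec

section points

variable {δ : MvPolynomial WI ℤ} [Fact (Nice δ)] {k : Type} [Field k] [Two k]

open TP

omit [Fact (Nice δ)] [Two k] in
theorem Par.symm {x y : TP δ k} (h : TP.Par x y) : TP.Par y x :=
  ⟨crs_comm_zero h.1, crs_comm_zero h.2⟩

omit [Fact (Nice δ)] [Two k] in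
theorem Par.trans {x y z : TP δ k} (h : TP.Par x y) (h' : TP.Par y z) : TP.Par x z :=
  ⟨crs_trans (Uni.ne y.hu) h.1 h'.1, crs_trans (Uni.ne y.hv) h.2 h'.2⟩

theorem Par.s1 {x y : TP δ k} (hW : y.W = x.W) (h : TP.Par x y) : TP.Par x.s1 y.s1 := by
  obtain ⟨c, hc⟩ := exists_sm (Uni.ne x.hu) h.1
  obtain ⟨d, hd⟩ := exists_sm (Uni.ne x.hv) h.2
  have hc0 : c ≠ 0 := sm_ne (hc ▸ Uni.ne y.hu)
  have hd0 : d ≠ 0 := sm_ne (hd ▸ Uni.ne y.hv)
  have h2 := y.s1_conj
  rw [hW, hc, hd] at h2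
  have h3 := conj_sm x.W hc0 hd0 x.hu x.s1_conj h2
  constructor
  · rw [h3]
    exact crs_sm _ _
  · rw [s1_v, s1_v, hd]
    exact crs_sm _ _

theorem Par.s2 {x y : TP δ k} (hW : y.W = x.W) (h : TP.Par x y) : TP.Par x.s2 y.s2 := by
  obtain ⟨c, hc⟩ := exists_sm (Uni.ne x.hu) h.1
  obtain ⟨d, hd⟩ := exists_sm (Uni.ne x.hv) h.2
  have hc0 : c ≠ 0 := sm_ne (hc ▸ Uni.ne y.hu)
  have hd0 : d ≠ 0 := sm_ne (hd ▸ Uni.ne y.hv)
  have h2 := y.s2_conj
  rw [hW, hc, hd] at h2
  have h3 := conj_sm x.W.swap hd0 hc0 x.hv x.s2_conj h2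
  constructor
  · rw [s2_u, s2_u, hc]
    exact crs_sm _ _
  · rw [h3]
    exact crs_sm _ _

theorem Par.F {x y : TP δ k} (hW : y.W = x.W) (h : TP.Par x y) : TP.Par (TP.F x) (TP.F y) := by
  rw [F_apply, F_apply]
  exact Par.s2 (by rw [s1_W, s1_W, hW]) (Par.s1 hW h)

theorem Par.F_symm {x y : TP δ k} (hW : y.W = x.W) (h : TP.Par x y) :
    TP.Par (TP.F.symm x) (TP.F.symm y) := by
  rw [F_symm_apply, F_symm_apply]
  exact Par.s1 (by rw [s2_W, s2_W, hW]) (Par.s2 hW h)

theorem Par.zpow (n : ℤ) {x y : TP δ k} (hW : y.W = x.W) (h : TP.Par x y) :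
    TP.Par ((TP.F ^ n : Equiv.Perm (TP δ k)) x) ((TP.F ^ n : Equiv.Perm (TP δ k)) y) := by
  induction n generalizing x y with
  | zero => exact h
  | succ n ih =>
    rw [zpow_add_one, Equiv.Perm.mul_apply, Equiv.Perm.mul_apply]
    exact ih (by rw [F_W, F_W, hW]) (Par.F hW h)
  | pred n ih =>
    rw [zpow_sub_one, Equiv.Perm.mul_apply, Equiv.Perm.mul_apply]
    exact ih (by
      show (TP.F.symm y).W = (TP.F.symm x).W
      rw [F_symm_W, F_symm_W, hW]) (Par.F_symm hW h)

omit [Two k] in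
/-- The points with parallel first coordinate. -/
theorem par_of_u [CharZero k] {x y : TP δ k} (hW : y.W = x.W) (h : crs x.u y.u = 0) :
    TP.Par x y ∨ TP.Par x.s2 y := by
  obtain ⟨c, hc⟩ := exists_sm (Uni.ne x.hu) h
  have hc0 : c ≠ 0 := sm_ne (hc ▸ Uni.ne y.hu)
  have h1 : x.W.IsPt x.u y.v := by
    have h2 := isPt_sm x.W c⁻¹ (u := y.u) (v := y.v) (by rw [← hW]; exact y.pt)
    rw [hc, sm_sm, inv_mul_cancel₀ hc0, sm_one] at h2
    exact h2
  obtain ⟨v', h3, -⟩ := x.W.swap.exists_conj y.hv ((x.W.swap_isPt x.u y.v).mpr h1)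
  rcases pair_unique h3 x.s2_conj with h4 | h4
  · exact Or.inl ⟨h, h4⟩
  · exact Or.inr ⟨by rw [s2_u]; exact h, h4⟩

omit [Two k] in
/-- The points with parallel second coordinate. -/
theorem par_of_v [CharZero k] {x y : TP δ k} (hW : y.W = x.W) (h : crs x.v y.v = 0) :
    TP.Par x y ∨ TP.Par x.s1 y := by
  obtain ⟨c, hc⟩ := exists_sm (Uni.ne x.hv) h
  have hc0 : c ≠ 0 := sm_ne (hc ▸ Uni.ne y.hv)
  have h1 : x.W.IsPt y.u x.v := by
    have h0 : x.W.swap.IsPt y.v y.u := by rw [← hW]; exact (y.W.swap_isPt y.u y.v).mpr y.pt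
    have h2 := isPt_sm x.W.swap c⁻¹ (u := y.v) (v := y.u) h0
    rw [hc, sm_sm, inv_mul_cancel₀ hc0, sm_one] at h2
    exact (x.W.swap_isPt y.u x.v).mp h2
  obtain ⟨u', h3, -⟩ := x.W.exists_conj y.hu h1
  rcases pair_unique h3 x.s1_conj with h4 | h4
  · exact Or.inl ⟨h4, h⟩
  · exact Or.inr ⟨h4, by rw [s1_v]; exact h⟩

end points

end Pool.Agent.Helper96.KW
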